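import Pool.Agent.Lib.MP_fa837f_gt.P2.Iface

/-!
Module KM: algebra of `mix` (multilinearity of the determinant).
-/

set_option autoImplicit false

open MeasureTheory Matrix Set Filter Topology

namespace Pool.Agent.Lib.MP_fa837f_gt.P2.H14

variable {n k : ℕ}

theorem det_RR_expand (m : Fin n → Fin k → ℝ) (r : Fin n → ℝ) :
    (RR m r).det = ∑ f : Fin k → Fin n,
      (∏ a, (r (f a) * m (f a) a)) * (Matrix.of fun a b => m (f a) b).det := by
  have h1 : RR m r = Matrix.of (fun a => ∑ i, (r i * m i a) • m i) := by
    ext a b
    simp only [RR, Matrix.sum_apply, Matrix.smul_apply, vecMulVec_apply, Matrix.of_apply,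
      Finset.sum_apply, Pi.smul_apply, smul_eq_mul]
    refine Finset.sum_congr rfl fun i _ => ?_
    ring
  rw [h1]
  have h2 := (Matrix.detRowAlternating (R := ℝ) (n := Fin k)).toMultilinearMap.map_sum
    (fun a (i : Fin n) => (r i * m i a) • m i)
  have h3 : (Matrix.of (fun a => ∑ i, (r i * m i a) • m i)).det =
      ∑ f : Fin k → Fin n, (Matrix.of fun a => (r (f a) * m (f a) a) • m (f a)).det := h2
  rw [h3]
  refine Finset.sum_congr rfl fun f _ => ?_
  have h4 : (Matrix.of fun a => (r (f a) * m (f a) a) • m (f a)) =
      Matrix.of fun a b => (r (f a) * m (f a) a) * (Matrix.of fun a b => m (f a) b) a b := by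
    ext a b
    simp
  rw [h4, Matrix.det_mul_column]

theorem part1 (m : Fin n → Fin k → ℝ) (v r : Fin n → ℝ) :
    mix m v (fun i => r i * v i) = (RR m r).det * ∏ i, v i := by
  rw [det_RR_expand, mix, Finset.sum_mul]
  refine Finset.sum_congr rfl fun f _ => ?_
  by_cases hf : Function.Injective f
  · have h5 : (∏ i, if i ∈ Set.range f then r i * v i else v i) =
        (∏ a, r (f a)) * ∏ i, v i := by
      have h6 : ∀ i, (if i ∈ Set.range f then r i * v i else v i) =
          (if i ∈ Set.range f then r i else 1) * v i := by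
        intro i
        split_ifs <;> simp
      rw [Finset.prod_congr rfl fun i _ => h6 i, Finset.prod_mul_distrib]
      congr 1
      rw [← Finset.prod_filter]
      have h7 : (Finset.univ.filter fun i => i ∈ Set.range f) = Finset.univ.image f := by
        ext i
        simp
      rw [h7, Finset.prod_image fun a _ b _ h => hf h]
    rw [h5, Finset.prod_mul_distrib]
    ring
  · have h8 : (Matrix.of fun a b => m (f a) b).det = 0 := by
      simp only [Function.Injective, not_forall] at hf
      obtain ⟨a, b, hab, hne⟩ := hf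
      exact Matrix.det_zero_of_row_eq hne (by ext c; simp [hab])
    rw [h8]
    ring

theorem km_st : KmStatement := by
  intro n k m
  refine ⟨part1 m, ?_⟩
  intro M C E s
  have h1 : ∀ J : Fin n → Fin M, (∏ i, C i (J i)) *
      ((RR m fun i => s (J i)).det * ∏ i, E i (J i)) =
      ∑ f : Fin k → Fin n, (∏ a, m (f a) a) * (Matrix.of fun a b => m (f a) b).det *
        ∏ i, (C i (J i) * if i ∈ Set.range f then s (J i) * E i (J i) else E i (J i)) := by
    intro J
    rw [← part1 m (fun i => E i (J i)) (fun i => s (J i)), mix, Finset.mul_sum]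
    refine Finset.sum_congr rfl fun f _ => ?_
    rw [Finset.prod_mul_distrib]
    ring
  rw [Finset.sum_congr rfl fun J _ => h1 J, Finset.sum_comm, mix]
  refine Finset.sum_congr rfl fun f _ => ?_
  rw [← Finset.mul_sum]
  congr 1
  have h2 : ∀ i : Fin n, (if i ∈ Set.range f then ∑ j, C i j * (s j * E i j)
      else ∑ j, C i j * E i j) =
      ∑ j, C i j * (if i ∈ Set.range f then s j * E i j else E i j) := by
    intro i
    split_ifs <;> rfl
  rw [Finset.prod_congr rfl fun i _ => h2 i, Finset.prod_univ_sum, Fintype.piFinset_univ]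

end Pool.Agent.Lib.MP_fa837f_gt.P2.H14
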